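import Pool.Agent.H30.VR.Targets

/-!
# MP_d32443_co, board ver_modules, row IND: the subgraph on `W` as a graph on a type
-/

set_option autoImplicit false

namespace Pool.Agent.H89.VR

open Finset Pool.Agent.H48.CE Pool.Agent.H30.VR

theorem mem_map_sub {V : Type} {W : Finset V} (A : Finset {x // x ∈ W}) (x : V) :
    x ∈ A.map (Function.Embedding.subtype _) ↔ ∃ h : x ∈ W, (⟨x, h⟩ : {x // x ∈ W}) ∈ A := by
  rw [Finset.mem_map]
  constructor
  · rintro ⟨⟨y, hy⟩, hyA, rfl⟩
    exact ⟨hy, hyA⟩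
  · rintro ⟨h, hA⟩
    exact ⟨⟨x, h⟩, hA, rfl⟩

theorem pf_IND : T_IND := by
  intro V _ G T W hW
  classical
  let G' : SimpleGraph {x // x ∈ W} := G.comap Subtype.val
  refine ⟨{x // x ∈ W}, inferInstance, G', Fintype.card_coe W, ?_, ?_, ?_⟩
  · unfold ee
    rw [← Finset.sum_coe_sort W (fun a => (nb G W a).card)]
    refine Finset.sum_congr rfl fun a _ => ?_
    refine Finset.card_bij (fun x _ => x.1) ?_ ?_ ?_
    · intro x hx
      rw [mem_nb] at hx ⊢
      exact ⟨x.2, hx.2⟩
    · intro x _ y _ h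
      exact Subtype.ext h
    · intro y hy
      rw [mem_nb] at hy
      exact ⟨⟨y, hy.1⟩, mem_nb.2 ⟨Finset.mem_univ _, hy.2⟩, rfl⟩
  · intro A' B' hcov hsep
    have h := hW (A'.map (Function.Embedding.subtype _)) (B'.map (Function.Embedding.subtype _))
      (by
        intro x
        rw [mem_map_sub, mem_map_sub]
        constructor
        · rintro (⟨h, _⟩ | ⟨h, _⟩) <;> exact h
        · intro h
          rcases hcov ⟨x, h⟩ with h1 | h1
          · exact Or.inl ⟨h, h1⟩
          · exact Or.inr ⟨h, h1⟩)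
      (by
        intro x hx hx' y hy hy' hadj
        rw [mem_map_sub] at hx hx' hy hy'
        obtain ⟨hxW, hxA⟩ := hx
        obtain ⟨hyW, hyB⟩ := hy
        exact hsep ⟨x, hxW⟩ hxA (fun h => hx' ⟨hxW, h⟩) ⟨y, hyW⟩ hyB (fun h => hy' ⟨hyW, h⟩) hadj)
    rcases h with h | h | ⟨S, hS, hT⟩
    · left
      intro x
      have h1 : (x : V) ∈ A'.map (Function.Embedding.subtype _) := by rw [h]; exact x.2
      rw [mem_map_sub] at h1
      obtain ⟨_, h2⟩ := h1
      exact h2
    · right; left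
      intro x
      have h1 : (x : V) ∈ B'.map (Function.Embedding.subtype _) := by rw [h]; exact x.2
      rw [mem_map_sub] at h1
      obtain ⟨_, h2⟩ := h1
      exact h2
    · right; right
      refine ⟨Finset.univ.filter fun x : {x // x ∈ W} => (x : V) ∈ S, ?_, ?_⟩
      · intro x
        rw [Finset.mem_filter, hS, mem_map_sub, mem_map_sub]
        constructor
        · rintro ⟨_, ⟨_, h1⟩, ⟨_, h2⟩⟩
          exact ⟨h1, h2⟩
        · rintro ⟨h1, h2⟩
          exact ⟨Finset.mem_univ _, ⟨x.2, h1⟩, ⟨x.2, h2⟩⟩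
      · refine lt_of_lt_of_le hT (Finset.card_le_card_of_surjOn (fun x => x.1) ?_)
        intro y hy
        have h1 := ((hS y).1 hy).1
        rw [mem_map_sub] at h1
        obtain ⟨hyW, _⟩ := h1
        exact ⟨⟨y, hyW⟩, Finset.mem_coe.2 (Finset.mem_filter.2 ⟨Finset.mem_univ _, hy⟩), rfl⟩
  · rintro k ⟨l, hl⟩
    refine ⟨l, fun i hi => ?_⟩
    obtain ⟨v, c, hc, hlen⟩ := hl i hi
    let f : G' →g G := ⟨Subtype.val, fun h => h⟩
    have hf : Function.Injective f := Subtype.val_injective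
    exact ⟨f v, c.map f, hc.map hf, by rw [SimpleGraph.Walk.length_map, hlen]⟩

end Pool.Agent.H89.VR

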